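import Mathlib

/-!
# Alternating sums over the chains of a finite partially ordered set
-/

open scoped Classical

noncomputable section

namespace Pool.Agent.Q18.KRX

section

variable {α : Type*} [PartialOrder α]

/-- the sum of `(-1)^|σ|` over the chains `σ ⊆ X`, the empty one included -/
def E (X : Finset α) : ℤ :=
  ∑ σ ∈ X.powerset.filter (fun σ : Finset α => IsChain (· ≤ ·) (σ : Set α)), (-1) ^ σ.card

/-- the members of `X` comparable with `x` and different from `x` -/
def link (X : Finset α) (x : α) : Finset α := X.filter (fun y => y < x ∨ x < y)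

lemma E_erase {X : Finset α} {x : α} (hx : x ∈ X) : E X = E (X.erase x) - E (link X x) := by
  have hX : X = insert x (X.erase x) := (Finset.insert_erase hx).symm
  have hsub : (link X x).powerset ⊆ (X.erase x).powerset := by
    rw [Finset.powerset_mono]
    intro y hy
    obtain ⟨h1, h2⟩ := Finset.mem_filter.mp hy
    refine Finset.mem_erase.mpr ⟨?_, h1⟩
    rintro rfl
    exact h2.elim (lt_irrefl _) (lt_irrefl _)
  have e1 : E X = ∑ t ∈ (X.erase x).powerset,
        (if IsChain (· ≤ ·) (t : Set α) then (-1 : ℤ) ^ t.card else 0) +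
      ∑ t ∈ (X.erase x).powerset,
        (if IsChain (· ≤ ·) ((insert x t : Finset α) : Set α) then
          (-1 : ℤ) ^ (insert x t : Finset α).card else 0) := by
    rw [← Finset.sum_powerset_insert (Finset.notMem_erase x X)
      (fun t : Finset α => if IsChain (· ≤ ·) (t : Set α) then (-1 : ℤ) ^ t.card else 0), ← hX]
    unfold E
    rw [Finset.sum_filter]
  have e2 : ∑ t ∈ (X.erase x).powerset,
        (if IsChain (· ≤ ·) ((insert x t : Finset α) : Set α) then
          (-1 : ℤ) ^ (insert x t : Finset α).card else 0) = - E (link X x) := by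
    rw [← Finset.sum_subset hsub]
    · unfold E
      rw [Finset.sum_filter, ← Finset.sum_neg_distrib]
      refine Finset.sum_congr rfl fun t ht => ?_
      have ht' : ∀ y ∈ t, y < x ∨ x < y := fun y hy =>
        (Finset.mem_filter.mp (Finset.mem_powerset.mp ht hy)).2
      have hxt : x ∉ t := fun h => (ht' x h).elim (lt_irrefl _) (lt_irrefl _)
      have hc : IsChain (· ≤ ·) ((insert x t : Finset α) : Set α) ↔
          IsChain (· ≤ ·) (t : Set α) := by
        rw [Finset.coe_insert]
        constructor
        · intro h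
          exact h.mono (Set.subset_insert _ _)
        · intro h
          refine h.insert fun y hy _ => ?_
          rcases ht' y hy with h1 | h1
          · exact Or.inr h1.le
          · exact Or.inl h1.le
      rw [Finset.card_insert_of_notMem hxt]
      by_cases h : IsChain (· ≤ ·) (t : Set α)
      · rw [if_pos (hc.mpr h), if_pos h, pow_succ]
        ring
      · rw [if_neg (fun h' => h (hc.mp h')), if_neg h, neg_zero]
    · intro t ht ht'
      rw [if_neg]
      intro hc
      apply ht'
      rw [Finset.mem_powerset]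
      intro y hy
      have hyX : y ∈ X.erase x := Finset.mem_powerset.mp ht hy
      have hyx : y ≠ x := (Finset.mem_erase.mp hyX).1
      refine Finset.mem_filter.mpr ⟨(Finset.mem_erase.mp hyX).2, ?_⟩
      rcases hc (x := x) (by simp) (y := y) (by simp [hy]) hyx.symm with h | h
      · exact Or.inr (lt_of_le_of_ne h hyx.symm)
      · exact Or.inl (lt_of_le_of_ne h hyx)
  rw [e1, e2]
  unfold E
  simp only [Finset.sum_filter]
  ring

/-- a cone has vanishing alternating sum -/
lemma E_cone {X : Finset α} {c : α} (hc : c ∈ X) (h : ∀ y ∈ X, y ≤ c ∨ c ≤ y) : E X = 0 := by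
  rw [E_erase hc]
  have : link X c = X.erase c := by
    ext y
    unfold link
    rw [Finset.mem_filter, Finset.mem_erase]
    constructor
    · rintro ⟨h1, h2⟩
      refine ⟨?_, h1⟩
      rintro rfl
      exact h2.elim (lt_irrefl _) (lt_irrefl _)
    · rintro ⟨h1, h2⟩
      refine ⟨h2, ?_⟩
      rcases h y h2 with h3 | h3
      · exact Or.inl (lt_of_le_of_ne h3 h1)
      · exact Or.inr (lt_of_le_of_ne h3 h1.symm)
  rw [this, sub_self]

/-- deflationary retractions -/
lemma E_retract (r : α → α) : ∀ (n : ℕ) (X : Finset α), (X.filter (fun x => r x ≠ x)).card = n →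
    (∀ x ∈ X, r x ∈ X) → (∀ x ∈ X, r x ≤ x) → (∀ x ∈ X, r (r x) = r x) →
    (∀ x ∈ X, ∀ y ∈ X, x ≤ y → r x ≤ r y) → E X = E (X.filter (fun x => r x = x)) := by
  intro n
  induction n with
  | zero =>
    intro X hn h1 h2 h3 h4
    have : X.filter (fun x => r x = x) = X := by
      rw [Finset.filter_eq_self]
      intro x hx
      by_contra hne
      have : x ∈ X.filter (fun x => r x ≠ x) := Finset.mem_filter.mpr ⟨hx, hne⟩
      rw [Finset.card_eq_zero.mp hn] at this
      simp at this
    rw [this]
  | succ n ih =>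
    intro X hn h1 h2 h3 h4
    have hne : (X.filter (fun x => r x ≠ x)).Nonempty := by
      rw [← Finset.card_pos, hn]
      omega
    obtain ⟨x, hxm⟩ := (X.filter (fun x => r x ≠ x)).exists_minimal hne
    have hxX : x ∈ X := (Finset.mem_filter.mp hxm.prop).1
    have hrx : r x ≠ x := (Finset.mem_filter.mp hxm.prop).2
    have hlt : r x < x := lt_of_le_of_ne (h2 x hxX) hrx
    have hlow : ∀ y ∈ X, y < x → r y = y := by
      intro y hy hyx
      by_contra hne
      have := hxm.le_of_le (Finset.mem_filter.mpr ⟨hy, hne⟩) hyx.le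
      exact absurd (lt_of_lt_of_le hyx this) (lt_irrefl _)
    have hcone : E (link X x) = 0 := by
      apply E_cone (c := r x)
      · exact Finset.mem_filter.mpr ⟨h1 x hxX, Or.inl hlt⟩
      · intro y hy
        obtain ⟨hyX, hy2⟩ := Finset.mem_filter.mp hy
        rcases hy2 with hy2 | hy2
        · left
          have := h4 y hyX x hxX hy2.le
          rwa [hlow y hyX hy2] at this
        · right
          exact hlt.le.trans hy2.le
    rw [E_erase hxX, hcone, sub_zero]
    have hcard : ((X.erase x).filter (fun x => r x ≠ x)).card = n := by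
      rw [Finset.filter_erase, Finset.card_erase_of_mem hxm.prop, hn]
      rfl
    have h5 : ∀ y ∈ X.erase x, y ∈ X := fun y hy => (Finset.mem_erase.mp hy).2
    rw [ih (X.erase x) hcard (fun y hy => Finset.mem_erase.mpr ⟨?_, h1 y (h5 y hy)⟩)
      (fun y hy => h2 y (h5 y hy)) (fun y hy => h3 y (h5 y hy))
      (fun y hy z hz => h4 y (h5 y hy) z (h5 z hz))]
    · congr 1
      ext y
      simp only [Finset.mem_filter, Finset.mem_erase]
      constructor
      · rintro ⟨⟨-, a⟩, b⟩
        exact ⟨a, b⟩
      · rintro ⟨a, b⟩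
        refine ⟨⟨?_, a⟩, b⟩
        rintro rfl
        exact hrx b
    · intro hyx
      apply hrx
      rw [← hyx]
      exact h3 y (h5 y hy)

/-- removing minimal members -/
lemma E_minimal (A : Finset α) : ∀ X : Finset α, A ⊆ X → (∀ U ∈ A, ∀ y ∈ X, ¬ y < U) →
    E X = E (X.filter (fun x => x ∉ A)) - ∑ U ∈ A, E (X.filter (fun y => U < y)) := by
  induction A using Finset.induction_on with
  | empty =>
    intro X _ _
    simp
  | insert U A hU ih =>
    intro X hAX hmin
    have hUX : U ∈ X := hAX (Finset.mem_insert_self U A)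
    have h1 : link X U = X.filter (fun y => U < y) := by
      unfold link
      refine Finset.filter_congr fun y hy => ?_
      constructor
      · rintro (h | h)
        · exact absurd h (hmin U (Finset.mem_insert_self U A) y hy)
        · exact h
      · exact Or.inr
    rw [E_erase hUX, h1, Finset.sum_insert hU]
    rw [ih (X.erase U) (fun y hy => Finset.mem_erase.mpr
      ⟨fun h => hU (h ▸ hy), hAX (Finset.mem_insert_of_mem hy)⟩)
      (fun V hV y hy => hmin V (Finset.mem_insert_of_mem hV) y (Finset.mem_erase.mp hy).2)]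
    have h2 : (X.erase U).filter (fun x => x ∉ A) = X.filter (fun x => x ∉ insert U A) := by
      ext y
      simp only [Finset.mem_filter, Finset.mem_erase, Finset.mem_insert, not_or]
      tauto
    have h3 : ∀ V ∈ A, E ((X.erase U).filter (fun y => V < y)) =
        E (X.filter (fun y => V < y)) := by
      intro V hV
      congr 1
      ext y
      simp only [Finset.mem_filter, Finset.mem_erase]
      constructor
      · rintro ⟨⟨-, a⟩, b⟩
        exact ⟨a, b⟩
      · rintro ⟨a, b⟩
        refine ⟨⟨?_, a⟩, b⟩
        rintro rfl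
        exact hmin y (Finset.mem_insert_self y A) V (hAX (Finset.mem_insert_of_mem hV)) b
    rw [h2, Finset.sum_congr rfl h3]
    ring

/-- isomorphic finite posets -/
lemma E_image {β : Type*} [PartialOrder β] (X : Finset α) (f : α → β)
    (hf : ∀ a ∈ X, ∀ b ∈ X, (f a ≤ f b ↔ a ≤ b)) : E (X.image f) = E X := by
  have hinj : ∀ a ∈ X, ∀ b ∈ X, f a = f b → a = b := fun a ha b hb h =>
    le_antisymm ((hf a ha b hb).mp h.le) ((hf b hb a ha).mp h.ge)
  symm
  unfold E
  refine Finset.sum_bij (fun σ _ => σ.image f) ?_ ?_ ?_ ?_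
  · intro σ hσ
    obtain ⟨h1, h2⟩ := Finset.mem_filter.mp hσ
    have h1' := Finset.mem_powerset.mp h1
    refine Finset.mem_filter.mpr ⟨Finset.mem_powerset.mpr (Finset.image_subset_image h1'), ?_⟩
    rw [Finset.coe_image]
    rintro _ ⟨a, ha, rfl⟩ _ ⟨b, hb, rfl⟩ hab
    have hne : a ≠ b := fun h => hab (by rw [h])
    rcases h2 ha hb hne with h | h
    · exact Or.inl ((hf a (h1' ha) b (h1' hb)).mpr h)
    · exact Or.inr ((hf b (h1' hb) a (h1' ha)).mpr h)
  · intro σ hσ τ hτ h
    have hσ' := Finset.mem_powerset.mp (Finset.mem_filter.mp hσ).1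
    have hτ' := Finset.mem_powerset.mp (Finset.mem_filter.mp hτ).1
    have key : ∀ σ τ : Finset α, σ ⊆ X → τ ⊆ X → σ.image f = τ.image f → σ ⊆ τ := by
      intro σ τ h1 h2 h a ha
      have : f a ∈ τ.image f := h ▸ Finset.mem_image_of_mem f ha
      obtain ⟨b, hb, hb2⟩ := Finset.mem_image.mp this
      have := hinj b (h2 hb) a (h1 ha) hb2
      rwa [← this]
    exact Finset.Subset.antisymm (key σ τ hσ' hτ' h) (key τ σ hτ' hσ' h.symm)
  · intro τ hτ
    obtain ⟨h1, h2⟩ := Finset.mem_filter.mp hτ
    have h1' := Finset.mem_powerset.mp h1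
    have himg : (X.filter (fun a => f a ∈ τ)).image f = τ := by
      ext b
      constructor
      · intro hb
        obtain ⟨a, ha, rfl⟩ := Finset.mem_image.mp hb
        exact (Finset.mem_filter.mp ha).2
      · intro hb
        obtain ⟨a, ha, rfl⟩ := Finset.mem_image.mp (h1' hb)
        exact Finset.mem_image_of_mem f (Finset.mem_filter.mpr ⟨ha, hb⟩)
    refine ⟨X.filter (fun a => f a ∈ τ), ?_, himg⟩
    refine Finset.mem_filter.mpr ⟨Finset.mem_powerset.mpr (Finset.filter_subset _ _), ?_⟩
    intro a ha b hb hab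
    obtain ⟨ha1, ha2⟩ := Finset.mem_filter.mp (Finset.mem_coe.mp ha)
    obtain ⟨hb1, hb2⟩ := Finset.mem_filter.mp (Finset.mem_coe.mp hb)
    have hne : f a ≠ f b := fun h => hab (hinj a ha1 b hb1 h)
    rcases h2 ha2 hb2 hne with h | h
    · exact Or.inl ((hf a ha1 b hb1).mp h)
    · exact Or.inr ((hf b hb1 a ha1).mp h)
  · intro σ hσ
    have hσ' := Finset.mem_powerset.mp (Finset.mem_filter.mp hσ).1
    rw [Finset.card_image_of_injOn]
    intro a ha b hb h
    exact hinj a (hσ' ha) b (hσ' hb) h

end

end Pool.Agent.Q18.KRX
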