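import Pool.Agent.Q18.KRX.StmT
import Pool.Agent.Q18.KRX.Poset

/-!
# The poset of `p`-subgroups and normal subgroups of index `p`
-/

open scoped Classical

noncomputable section

namespace Pool.Agent.Q18.KRX

open Pool.Agent.Y63.KR

section

variable {p : ℕ} {Γ : Type} [Group Γ]

/-- the poset of nontrivial `p`-subgroups normalised by `K` as a finite set -/
def FP (p : ℕ) {Γ : Type} [Group Γ] [Finite Γ] (K : Set Γ) : Finset (Subgroup Γ) :=
  (Set.toFinite (fixedPoset p K)).toFinset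

lemma mem_FP [Finite Γ] {K : Set Γ} {Q : Subgroup Γ} :
    Q ∈ FP p K ↔ IsPGroup p Q ∧ Q ≠ ⊥ ∧ ∀ x ∈ K, conjSub x Q = Q := by
  unfold FP
  rw [Set.Finite.mem_toFinset]
  rfl

lemma W_eq_E [Finite Γ] (K : Set Γ) : W p K = E (FP p K) := by
  have h0 : Fintype (Set (Subgroup Γ)) := Fintype.ofFinite _
  have h1 : Fintype {σ : Set (Subgroup Γ) // IsPChain p σ} := Fintype.ofFinite _
  unfold W
  rw [finsum_eq_sum_of_fintype]
  have e1 : ∀ σ : {σ : Set (Subgroup Γ) // IsPChain p σ},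
      (-1 : ℤ) ^ σ.1.ncard * (if ∀ P ∈ σ.1, ∀ x ∈ K, conjSub x P = P then 1 else 0) =
      if ∀ P ∈ σ.1, ∀ x ∈ K, conjSub x P = P then (-1 : ℤ) ^ σ.1.ncard else 0 := by
    intro σ
    split_ifs <;> simp
  simp only [e1]
  rw [← Finset.sum_filter]
  unfold E
  refine Finset.sum_bij (fun σ _ => (Set.toFinite σ.1).toFinset) ?_ ?_ ?_ ?_
  · intro σ hσ
    have h2 := (Finset.mem_filter.mp hσ).2
    refine Finset.mem_filter.mpr ⟨?_, ?_⟩
    · rw [Finset.mem_powerset]
      intro P hP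
      have hP' : P ∈ σ.1 := (Set.Finite.mem_toFinset _).mp hP
      exact mem_FP.mpr ⟨σ.2.isPGroup P hP', σ.2.ne_bot P hP', h2 P hP'⟩
    · rw [Set.Finite.coe_toFinset]
      exact σ.2.chain
  · intro σ _ τ _ h
    apply Subtype.ext
    have := congrArg (fun s : Finset (Subgroup Γ) => (s : Set (Subgroup Γ))) h
    simpa using this
  · intro τ hτ
    obtain ⟨h2, h3⟩ := Finset.mem_filter.mp hτ
    rw [Finset.mem_powerset] at h2
    refine ⟨⟨(τ : Set (Subgroup Γ)), ⟨h3, fun P hP => (mem_FP.mp (h2 hP)).1,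
      fun P hP => (mem_FP.mp (h2 hP)).2.1⟩⟩, ?_, ?_⟩
    · exact Finset.mem_filter.mpr ⟨Finset.mem_univ _, fun P hP => (mem_FP.mp (h2 hP)).2.2⟩
    · ext P
      simp
  · intro σ _
    rw [Set.ncard_eq_toFinset_card _ (Set.toFinite σ.1)]

lemma conjSub_inf (x : Γ) (P Q : Subgroup Γ) : conjSub x (P ⊓ Q) = conjSub x P ⊓ conjSub x Q := by
  ext y
  simp only [mem_conjSub, Subgroup.mem_inf]

lemma conjSub_sup (x : Γ) (P Q : Subgroup Γ) : conjSub x (P ⊔ Q) = conjSub x P ⊔ conjSub x Q :=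
  Subgroup.map_sup _ _ _

lemma conjSub_normal (x : Γ) (G : Subgroup Γ) [G.Normal] : conjSub x G = G := by
  rw [conjSub_eq_iff, Subgroup.normalizer_eq_top]
  trivial

lemma conjSub_of_mem (x : Γ) (C : Subgroup Γ) (hx : x ∈ C) : conjSub x C = C := by
  rw [conjSub_eq_iff]
  exact Subgroup.le_normalizer hx

/-- an element normalising `Q` and lying in a normal subgroup which meets `Q` trivially
centralises `Q` -/
lemma mem_centralizer_of {G Q : Subgroup Γ} [G.Normal] (hQ : G ⊓ Q = ⊥) {g : Γ} (hg : g ∈ G)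
    (hgQ : conjSub g Q = Q) : g ∈ Subgroup.centralizer (Q : Set Γ) := by
  rw [Subgroup.mem_centralizer_iff]
  intro q hq
  have h1 : g * q * g⁻¹ ∈ Q := by
    have := conj_mem_conjSub (g := g) hq
    rwa [hgQ] at this
  have h2 : g * q * g⁻¹ * q⁻¹ ∈ Q := Q.mul_mem h1 (Q.inv_mem hq)
  have h3 : g * q * g⁻¹ * q⁻¹ ∈ G := by
    have h4 : q * g⁻¹ * q⁻¹ ∈ G := Subgroup.Normal.conj_mem inferInstance _ (G.inv_mem hg) q
    have := G.mul_mem hg h4
    have e : g * (q * g⁻¹ * q⁻¹) = g * q * g⁻¹ * q⁻¹ := by group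
    rwa [e] at this
  have h5 : g * q * g⁻¹ * q⁻¹ ∈ G ⊓ Q := ⟨h3, h2⟩
  rw [hQ, Subgroup.mem_bot] at h5
  have h6 : g * q = q * g := by
    have h7 : g * q * g⁻¹ = q := mul_inv_eq_one.mp h5
    rw [mul_inv_eq_iff_eq_mul] at h7
    exact h7
  exact h6.symm

/-- the subgroups of order `p` outside `G` centralised by `K` -/
def AS (p : ℕ) {Γ : Type} [Group Γ] [Finite Γ] (G : Subgroup Γ) (K : Set Γ) :
    Finset (Subgroup Γ) :=
  (Set.toFinite {U : Subgroup Γ | Nat.card U = p ∧ ¬ U ≤ G ∧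
    K ⊆ (Subgroup.centralizer (U : Set Γ) : Set Γ)}).toFinset

lemma mem_AS [Finite Γ] {G : Subgroup Γ} {K : Set Γ} {U : Subgroup Γ} :
    U ∈ AS p G K ↔ Nat.card U = p ∧ ¬ U ≤ G ∧
      K ⊆ (Subgroup.centralizer (U : Set Γ) : Set Γ) := by
  unfold AS
  rw [Set.Finite.mem_toFinset]
  rfl

lemma inf_eq_bot_of_AS [Fact p.Prime] [Finite Γ] {G U : Subgroup Γ} (hU : Nat.card U = p)
    (hUG : ¬ U ≤ G) : G ⊓ U = ⊥ := by
  have hp : p.Prime := Fact.out
  have h1 : Nat.card ↥(G ⊓ U) ∣ p := by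
    rw [← hU]
    exact Subgroup.card_dvd_of_le inf_le_right
  rcases (Nat.dvd_prime hp).mp h1 with h | h
  · exact Subgroup.card_eq_one.mp h
  · exfalso
    apply hUG
    have : G ⊓ U = U := Subgroup.eq_of_le_of_card_ge inf_le_right (by rw [h, hU])
    rw [← this]
    exact inf_le_left

lemma AS_subset [Fact p.Prime] [Finite Γ] {G : Subgroup Γ} {K : Set Γ} : AS p G K ⊆ FP p K := by
  intro U hU
  obtain ⟨h1, h2, h3⟩ := mem_AS.mp hU
  refine mem_FP.mpr ⟨IsPGroup.of_card (n := 1) (by rw [h1, pow_one]), ?_, ?_⟩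
  · rintro rfl
    exact h2 bot_le
  · intro x hx
    rw [conjSub_eq_iff]
    exact Subgroup.centralizer_le_normalizer _ (h3 hx)

lemma card_of_inf_eq_bot [Fact p.Prime] [Finite Γ] {G Q : Subgroup Γ} [G.Normal]
    (hG : G.index = p) (hQ : G ⊓ Q = ⊥) (hne : Q ≠ ⊥) : Nat.card Q = p := by
  have hp : p.Prime := Fact.out
  have h1 : Nat.card Q ∣ p := by
    have h2 : G.relIndex Q = Nat.card Q := by
      rw [← Subgroup.inf_relIndex_right, hQ, Subgroup.relIndex_bot_left]
    rw [← h2, ← hG]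
    exact Subgroup.relIndex_dvd_index_of_normal G Q
  rcases (Nat.dvd_prime hp).mp h1 with h | h
  · exact absurd (Subgroup.card_eq_one.mp h) hne
  · exact h

/-- the members of `FP p K` outside `AS` -/
lemma not_mem_AS [Fact p.Prime] [Finite Γ] {G : Subgroup Γ} [G.Normal] (hG : G.index = p)
    {K : Set Γ} (hK : K ⊆ G) {Q : Subgroup Γ} (hQ : Q ∈ FP p K) :
    Q ∉ AS p G K ↔ G ⊓ Q ≠ ⊥ := by
  obtain ⟨h1, h2, h3⟩ := mem_FP.mp hQ
  rw [not_iff_comm, not_not, mem_AS]
  constructor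
  · intro h
    refine ⟨card_of_inf_eq_bot hG h h2, ?_, ?_⟩
    · intro hle
      rw [inf_eq_right.mpr hle] at h
      exact h2 h
    · intro x hx
      exact mem_centralizer_of h (hK hx) (h3 x hx)
  · rintro ⟨a, b, -⟩
    exact inf_eq_bot_of_AS a b

lemma map_conjSub {C : Subgroup Γ} (x : C) (R : Subgroup C) :
    (conjSub x R).map C.subtype = conjSub (x : Γ) (R.map C.subtype) := by
  unfold conjSub
  rw [Subgroup.map_map, Subgroup.map_map]
  congr 1

lemma map_mem_FP [Finite Γ] {C : Subgroup Γ} {K : Set Γ} (hK : K ⊆ C) {R : Subgroup C} :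
    R ∈ FP p {x : C | (x : Γ) ∈ K} ↔ R.map C.subtype ∈ FP p K := by
  have hinj : Function.Injective (Subgroup.map C.subtype) :=
    Subgroup.map_injective C.subtype_injective
  rw [mem_FP, mem_FP]
  refine and_congr ?_ (and_congr ?_ ?_)
  · constructor
    · intro h
      exact h.map _
    · intro h
      exact h.of_equiv (R.equivMapOfInjective _ C.subtype_injective).symm
  · rw [not_iff_not]
    rw [Subgroup.map_eq_bot_iff_of_injective _ C.subtype_injective]
  · constructor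
    · intro h x hx
      have := congrArg (Subgroup.map C.subtype) (h ⟨x, hK hx⟩ hx)
      rwa [map_conjSub] at this
    · intro h x hx
      apply hinj
      rw [map_conjSub]
      exact h x hx

/-- the part below `G` -/
lemma part_G [Finite Γ] {G : Subgroup Γ} {K : Set Γ} (hK : K ⊆ G) :
    E ((FP p K).filter (fun Q => Q ≤ G)) = E (FP p {x : G | (x : Γ) ∈ K}) := by
  rw [← E_image (FP p {x : G | (x : Γ) ∈ K}) (fun R : Subgroup G => R.map G.subtype)
    (fun R _ S _ => Subgroup.map_subtype_le_map_subtype)]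
  congr 1
  ext Q
  rw [Finset.mem_filter, Finset.mem_image]
  constructor
  · rintro ⟨h1, h2⟩
    refine ⟨Q.subgroupOf G, ?_, Subgroup.map_subgroupOf_eq_of_le h2⟩
    rw [map_mem_FP hK, Subgroup.map_subgroupOf_eq_of_le h2]
    exact h1
  · rintro ⟨R, hR, rfl⟩
    exact ⟨(map_mem_FP hK).mp hR, Subgroup.map_subtype_le R⟩

/-- normalisers grow in `p`-groups -/
lemma lt_inf_normalizer [Fact p.Prime] [Finite Γ] {U Q : Subgroup Γ} (hQ : IsPGroup p Q)
    (h : U < Q) : U < Q ⊓ Subgroup.normalizer (U : Set Γ) := by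
  have hnil : Group.IsNilpotent Q := hQ.isNilpotent
  have h1 : U.subgroupOf Q < ⊤ := by
    rw [lt_top_iff_ne_top]
    intro h2
    exact absurd (Subgroup.subgroupOf_eq_top.mp h2) (not_le_of_gt h)
  have h2 := Group.normalizerCondition_of_isNilpotent (U.subgroupOf Q) h1
  obtain ⟨x, hx1, hx2⟩ := SetLike.exists_of_lt h2
  refine lt_of_le_of_ne (le_inf h.le Subgroup.le_normalizer) ?_
  intro h3
  apply hx2
  rw [Subgroup.mem_subgroupOf, h3]
  refine ⟨x.2, ?_⟩
  change (x : Γ) ∈ Subgroup.normalizer (U : Set Γ)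
  rw [Subgroup.mem_normalizer_iff] at hx1 ⊢
  intro y
  constructor
  · intro hy
    have := (hx1 ⟨y, h.le hy⟩).mp hy
    exact this
  · intro hy
    have hyQ : (x : Γ) * y * (x : Γ)⁻¹ ∈ Q := h.le hy
    have hyQ' : y ∈ Q := by
      have := Q.mul_mem (Q.mul_mem (Q.inv_mem x.2) hyQ) x.2
      have e : (x : Γ)⁻¹ * ((x : Γ) * y * (x : Γ)⁻¹) * x = y := by group
      rwa [e] at this
    exact (hx1 ⟨y, hyQ'⟩).mpr hy

lemma mem_sup_iff {H U : Subgroup Γ} (h : H ≤ Subgroup.normalizer (U : Set Γ)) {x : Γ} :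
    x ∈ H ⊔ U ↔ ∃ a ∈ H, ∃ u ∈ U, a * u = x := by
  rw [← SetLike.mem_coe, Subgroup.coe_mul_of_left_le_normalizer_right H U h, Set.mem_mul]
  rfl

lemma sup_eq_top_of_AS [Fact p.Prime] [Finite Γ] {G U : Subgroup Γ} (hG : G.index = p)
    (hUG : ¬ U ≤ G) : G ⊔ U = ⊤ := by
  have hp : p.Prime := Fact.out
  have h1 : G.relIndex (G ⊔ U) * (G ⊔ U).index = p := by
    rw [Subgroup.relIndex_mul_index le_sup_left, hG]
  have h2 : (G ⊔ U).index ∣ p := Dvd.intro_left _ h1
  rcases (Nat.dvd_prime hp).mp h2 with h | h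
  · exact Subgroup.index_eq_one.mp h
  · exfalso
    rw [h] at h1
    have h3 : G.relIndex (G ⊔ U) = 1 := by
      have := hp.pos
      exact Nat.eq_of_mul_eq_mul_right this (by rw [h1, one_mul])
    rw [Subgroup.relIndex_eq_one] at h3
    exact hUG (le_sup_right.trans h3)

/-- the part above a member of `AS` -/
lemma part_U [Fact p.Prime] [Finite Γ] {G : Subgroup Γ} [G.Normal] (hG : G.index = p)
    {K : Set Γ} (hK : K ⊆ G) {U : Subgroup Γ} (hU : U ∈ AS p G K) :
    E ((FP p K).filter (fun Q => U < Q)) =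
      E (FP p {x : ↥(G ⊓ Subgroup.centralizer (U : Set Γ)) | (x : Γ) ∈ K}) := by
  obtain ⟨hU1, hU2, hU3⟩ := mem_AS.mp hU
  obtain ⟨hUp, hUne, hUK⟩ := mem_FP.mp (AS_subset hU)
  have hGU := inf_eq_bot_of_AS hU1 hU2
  have htop := sup_eq_top_of_AS hG hU2
  have hCN : Subgroup.centralizer (U : Set Γ) ≤ Subgroup.normalizer (U : Set Γ) :=
    Subgroup.centralizer_le_normalizer _
  have hKC : K ⊆ (G ⊓ Subgroup.centralizer (U : Set Γ) : Subgroup Γ) :=
    fun x hx => ⟨hK hx, hU3 hx⟩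
  have hKN : ∀ x ∈ K, conjSub x (Subgroup.normalizer (U : Set Γ)) =
      Subgroup.normalizer (U : Set Γ) := fun x hx => conjSub_of_mem x _ (hCN (hU3 hx))
  have hR : ∀ R : Subgroup ↥(G ⊓ Subgroup.centralizer (U : Set Γ)),
      R.map (G ⊓ Subgroup.centralizer (U : Set Γ)).subtype ≤
        G ⊓ Subgroup.centralizer (U : Set Γ) := fun R => Subgroup.map_subtype_le R
  have hRN : ∀ R : Subgroup ↥(G ⊓ Subgroup.centralizer (U : Set Γ)),
      R.map (G ⊓ Subgroup.centralizer (U : Set Γ)).subtype ≤ Subgroup.normalizer (U : Set Γ) :=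
    fun R => (hR R).trans (inf_le_right.trans hCN)
  rw [E_retract (fun Q => Q ⊓ Subgroup.normalizer (U : Set Γ)) _ _ rfl]
  · rw [← E_image (FP p {x : ↥(G ⊓ Subgroup.centralizer (U : Set Γ)) | (x : Γ) ∈ K})
      (fun R : Subgroup ↥(G ⊓ Subgroup.centralizer (U : Set Γ)) =>
        R.map (G ⊓ Subgroup.centralizer (U : Set Γ)).subtype ⊔ U) ?_]
    · congr 1
      ext Q
      simp only [Finset.mem_filter, Finset.mem_image, inf_eq_left]
      constructor
      · rintro ⟨⟨h1, h2⟩, h3⟩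
        obtain ⟨hQp, hQne, hQK⟩ := mem_FP.mp h1
        have hmap : ((Q ⊓ (G ⊓ Subgroup.centralizer (U : Set Γ))).subgroupOf
            (G ⊓ Subgroup.centralizer (U : Set Γ))).map
              (G ⊓ Subgroup.centralizer (U : Set Γ)).subtype =
            Q ⊓ (G ⊓ Subgroup.centralizer (U : Set Γ)) :=
          Subgroup.map_subgroupOf_eq_of_le inf_le_right
        have hdec : Q ⊓ (G ⊓ Subgroup.centralizer (U : Set Γ)) ⊔ U = Q := by
          apply le_antisymm (sup_le inf_le_left h2.le)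
          intro q hq
          have hqt : q ∈ G ⊔ U := by rw [htop]; trivial
          rw [← SetLike.mem_coe, Subgroup.normal_mul] at hqt
          obtain ⟨g, hg, u, hu, rfl⟩ := Set.mem_mul.mp hqt
          have hgQ : g ∈ Q := by
            have := Q.mul_mem hq (Q.inv_mem (h2.le hu))
            rwa [mul_inv_cancel_right] at this
          have hgc := mem_centralizer_of hGU hg (conjSub_eq_iff.mpr (h3 hgQ))
          exact Subgroup.mul_mem_sup ⟨hgQ, hg, hgc⟩ hu
        refine ⟨(Q ⊓ (G ⊓ Subgroup.centralizer (U : Set Γ))).subgroupOf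
            (G ⊓ Subgroup.centralizer (U : Set Γ)), ?_, ?_⟩
        · rw [map_mem_FP hKC, hmap, mem_FP]
          refine ⟨hQp.to_le inf_le_left, ?_, ?_⟩
          · intro h
            rw [h, bot_sup_eq] at hdec
            exact h2.ne hdec
          · intro x hx
            rw [conjSub_inf, hQK x hx, conjSub_of_mem x _ (hKC hx)]
        · rw [hmap, hdec]
      · rintro ⟨R, hR1, rfl⟩
        rw [map_mem_FP hKC, mem_FP] at hR1
        obtain ⟨hRp, hRne, hRK⟩ := hR1
        refine ⟨⟨mem_FP.mpr ⟨?_, ?_, ?_⟩, ?_⟩, ?_⟩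
        · exact hRp.to_sup_of_normal_right' hUp (hRN R)
        · intro h
          exact hUne (le_bot_iff.mp (h ▸ le_sup_right))
        · intro x hx
          rw [conjSub_sup, hRK x hx, hUK x hx]
        · refine lt_of_le_of_ne le_sup_right fun h => hRne ?_
          rw [eq_bot_iff, ← hGU]
          exact le_inf ((hR R).trans inf_le_left) (le_sup_left.trans h.ge)
        · exact sup_le (hRN R) Subgroup.le_normalizer
    · intro R _ S _
      constructor
      · intro h x hx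
        have hx1 : (x : Γ) ∈ R.map (G ⊓ Subgroup.centralizer (U : Set Γ)).subtype :=
          Subgroup.mem_map_of_mem _ hx
        have hx2 := h (Subgroup.mem_sup_left hx1)
        rw [mem_sup_iff (hRN S)] at hx2
        obtain ⟨s, hs, u, hu, hsu⟩ := hx2
        have hu1 : u ∈ G ⊓ U := by
          refine ⟨?_, hu⟩
          have : u = s⁻¹ * (x : Γ) := by rw [← hsu]; group
          rw [this]
          exact G.mul_mem (G.inv_mem ((hR S) hs).1) x.2.1
        rw [hGU, Subgroup.mem_bot] at hu1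
        rw [hu1, mul_one] at hsu
        rw [hsu] at hs
        obtain ⟨y, hy, hyx⟩ := hs
        have : y = x := Subtype.ext hyx
        rwa [← this]
      · intro h
        exact sup_le_sup_right (Subgroup.map_mono h) U
  · intro Q hQ
    obtain ⟨h1, h2⟩ := Finset.mem_filter.mp hQ
    obtain ⟨hQp, hQne, hQK⟩ := mem_FP.mp h1
    have h3 := lt_inf_normalizer hQp h2
    refine Finset.mem_filter.mpr ⟨mem_FP.mpr ⟨hQp.to_le inf_le_left, ?_, ?_⟩, h3⟩
    · intro h
      rw [h] at h3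
      exact absurd h3 not_lt_bot
    · intro x hx
      rw [conjSub_inf, hQK x hx, hKN x hx]
  · intro Q _
    exact inf_le_left
  · intro Q _
    rw [inf_assoc, inf_idem]
  · intro Q _ R _ h
    exact inf_le_inf_right _ h

end

theorem top : S_TOP := by
  intro p _ Γ _ _ G _ hG K hK
  have hfin : Fintype (Subgroup Γ) := Fintype.ofFinite _
  rw [W_eq_E, W_eq_E]
  have hsum : (∑ᶠ U : Subgroup Γ, if Nat.card U = p ∧ ¬ U ≤ G ∧
          K ⊆ (Subgroup.centralizer (U : Set Γ) : Set Γ) then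
        W p {x : ↥(G ⊓ Subgroup.centralizer (U : Set Γ)) | (x : Γ) ∈ K} else 0) =
      ∑ U ∈ AS p G K, E ((FP p K).filter (fun Q => U < Q)) := by
    rw [finsum_eq_sum_of_fintype, ← Finset.sum_filter]
    have : Finset.univ.filter (fun U : Subgroup Γ => Nat.card U = p ∧ ¬ U ≤ G ∧
          K ⊆ (Subgroup.centralizer (U : Set Γ) : Set Γ)) = AS p G K := by
      ext U
      rw [mem_AS]
      simp
    rw [this]
    exact Finset.sum_congr rfl fun U hU => by rw [part_U hG hK hU, W_eq_E]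
  rw [hsum, E_minimal (AS p G K) (FP p K) AS_subset ?_]
  · congr 1
    rw [E_retract (fun Q => G ⊓ Q) _ _ rfl]
    · rw [← part_G hK]
      congr 1
      ext Q
      simp only [Finset.mem_filter, inf_eq_right]
      constructor
      · rintro ⟨⟨a, -⟩, b⟩
        exact ⟨a, b⟩
      · rintro ⟨a, b⟩
        refine ⟨⟨a, ?_⟩, b⟩
        rw [not_mem_AS hG hK a, inf_eq_right.mpr b]
        exact (mem_FP.mp a).2.1
    · intro Q hQ
      obtain ⟨h1, h2⟩ := Finset.mem_filter.mp hQ
      obtain ⟨h3, h4, h5⟩ := mem_FP.mp h1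
      have h6 := (not_mem_AS hG hK h1).mp h2
      have h7 : G ⊓ Q ∈ FP p K := by
        refine mem_FP.mpr ⟨h3.to_le inf_le_right, h6, fun x hx => ?_⟩
        rw [conjSub_inf, conjSub_normal, h5 x hx]
      refine Finset.mem_filter.mpr ⟨h7, ?_⟩
      rw [not_mem_AS hG hK h7, ← inf_assoc, inf_idem]
      exact h6
    · intro Q _
      exact inf_le_right
    · intro Q _
      rw [← inf_assoc, inf_idem]
    · intro Q _ R _ h
      exact inf_le_inf_left G h
  · intro U hU Q hQ hlt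
    obtain ⟨h1, -, -⟩ := mem_AS.mp hU
    have hp : p.Prime := Fact.out
    have h2 : Nat.card Q ∣ p := by
      rw [← h1]
      exact Subgroup.card_dvd_of_le hlt.le
    rcases (Nat.dvd_prime hp).mp h2 with h | h
    · exact (mem_FP.mp hQ).2.1 (Subgroup.card_eq_one.mp h)
    · exact hlt.ne (Subgroup.eq_of_le_of_card_ge hlt.le (by rw [h, h1]))

end Pool.Agent.Q18.KRX
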