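import Pool.Agent.Q18.KRX.Stm
import Pool.Agent.Y63.NV.Krc

/-!
# Characters of defect zero and normal subgroups of index `p`
-/

open scoped Classical

noncomputable section

namespace Pool.Agent.Q18.KRX

open Pool.Agent.Y63.NV
open Pool.Agent.Y63.AWC (numDefectZero)

section

variable {p : ℕ} [hp : Fact p.Prime] {Γ : Type} [Group Γ] {G U : Subgroup Γ}

/-- the formula for normal subgroups of index `p`, for functions of finite groups -/
def IndexT (p : ℕ) (f : ∀ (H : Type) [Group H], ℤ) : Prop :=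
  ∀ (Γ : Type) [Group Γ] [Finite Γ] (G : Subgroup Γ) [G.Normal], G.index = p →
    (Nat.card Γ : ℤ) * f Γ = Nat.card G * f G -
      ∑ᶠ U : Subgroup Γ, if Nat.card U = p ∧ ¬ U ≤ G then
        (Nat.card ↥(G ⊓ Subgroup.centralizer (U : Set Γ)) : ℤ) *
          f ↥(G ⊓ Subgroup.centralizer (U : Set Γ)) else 0

/-- `f` is invariant under isomorphisms -/
def IsoT (f : ∀ (H : Type) [Group H], ℤ) : Prop :=
  ∀ (H K : Type) [Group H] [Group K] [Finite H] [Finite K], Nonempty (H ≃* K) → f H = f K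

lemma inf_eq_bot_of_card [Finite Γ] (hU : Nat.card U = p) (h : ¬ U ≤ G) : G ⊓ U = ⊥ := by
  have h1 : Nat.card ↥(G ⊓ U : Subgroup Γ) ∣ p := by
    rw [← hU]
    exact Subgroup.card_dvd_of_le inf_le_right
  rcases (Nat.dvd_prime hp.out).mp h1 with h2 | h2
  · exact Subgroup.card_eq_one.mp h2
  · exfalso
    apply h
    have h3 : G ⊓ U = U := Subgroup.eq_of_le_of_card_ge inf_le_right (by rw [h2, hU])
    exact inf_eq_right.mp h3

lemma sup_eq_top_of_index [Finite Γ] [G.Normal] (hi : G.index = p) (h : ¬ U ≤ G) :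
    G ⊔ U = ⊤ := by
  have h1 : (G ⊔ U).index ∣ p := by
    rw [← hi]
    exact Subgroup.index_dvd_of_le le_sup_left
  rcases (Nat.dvd_prime hp.out).mp h1 with h2 | h2
  · exact Subgroup.index_eq_one.mp h2
  · exfalso
    apply h
    have h3 : G = G ⊔ U := by
      refine Subgroup.eq_of_le_of_card_ge le_sup_left ?_
      have h4 := G.card_mul_index
      have h5 := (G ⊔ U).card_mul_index
      rw [hi] at h4
      rw [h2, ← h4] at h5
      exact (Nat.eq_of_mul_eq_mul_right hp.out.pos h5).le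
    rw [h3]
    exact le_sup_right

lemma card_of_compl [Finite Γ] [G.Normal] (hi : G.index = p) (h1 : G ⊔ U = ⊤) (h2 : G ⊓ U = ⊥) :
    Nat.card U = p := by
  have h3 : G.relIndex U = p := by
    rw [← Subgroup.relIndex_sup_right, sup_comm, h1, Subgroup.relIndex_top_right, hi]
  rw [← Subgroup.inf_relIndex_right, h2, Subgroup.relIndex_bot_left] at h3
  exact h3

/-- elements of `G` which normalise a complement centralise it -/
lemma comm_of_norm [hG : G.Normal] (h2 : G ⊓ U = ⊥) {g : Γ} (hg : g ∈ G)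
    (hn : g ∈ Subgroup.normalizer (U : Set Γ)) {u : Γ} (hu : u ∈ U) : u * g = g * u := by
  have h3 : g * u * g⁻¹ * u⁻¹ ∈ G ⊓ U := by
    refine ⟨?_, ?_⟩
    · have : g * (u * g⁻¹ * u⁻¹) ∈ G := G.mul_mem hg (hG.conj_mem _ (G.inv_mem hg) u)
      simpa [mul_assoc] using this
    · exact U.mul_mem ((Subgroup.mem_normalizer_iff.mp hn u).mp hu) (U.inv_mem hu)
  rw [h2, Subgroup.mem_bot] at h3
  rw [mul_inv_eq_one, mul_inv_eq_iff_eq_mul] at h3
  exact h3.symm

lemma cent_le_norm : G ⊓ Subgroup.centralizer (U : Set Γ) ≤ Subgroup.normalizer (U : Set Γ) := by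
  intro x hx
  rw [Subgroup.mem_normalizer_iff]
  have h1 : ∀ u ∈ U, u * x = x * u := fun u hu => Subgroup.mem_centralizer_iff.mp hx.2 u hu
  intro u
  constructor
  · intro hu
    rw [← h1 u hu, mul_inv_cancel_right]
    exact hu
  · intro hu
    have h3 := h1 _ hu
    have h4 : x * u * x⁻¹ = u := by
      have : x * u * x⁻¹ * x = x * (x * u * x⁻¹) := h3
      have h5 : x * u = x * (x * u * x⁻¹) := by simpa [mul_assoc] using this
      exact (mul_left_cancel h5).symm
    rwa [h4] at hu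

/-- `C_G(U) ≅ N(U)/U` -/
def quotEquiv [Finite Γ] [G.Normal] (h1 : G ⊔ U = ⊤) (h2 : G ⊓ U = ⊥) :
    ↥(G ⊓ Subgroup.centralizer (U : Set Γ)) ≃*
      (Subgroup.normalizer (U : Set Γ) ⧸ U.subgroupOf (Subgroup.normalizer (U : Set Γ))) := by
  refine MulEquiv.ofBijective ((QuotientGroup.mk' (U.subgroupOf
    (Subgroup.normalizer (U : Set Γ)))).comp (Subgroup.inclusion cent_le_norm)) ⟨?_, ?_⟩
  · rw [injective_iff_map_eq_one]
    rintro ⟨x, hx⟩ h
    have h3 : Subgroup.inclusion cent_le_norm ⟨x, hx⟩ ∈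
        U.subgroupOf (Subgroup.normalizer (U : Set Γ)) :=
      (QuotientGroup.eq_one_iff _).mp h
    rw [Subgroup.mem_subgroupOf] at h3
    have h4 : x ∈ G ⊓ U := ⟨hx.1, h3⟩
    rw [h2, Subgroup.mem_bot] at h4
    exact Subtype.ext h4
  · intro q
    obtain ⟨⟨n, hn⟩, rfl⟩ := QuotientGroup.mk'_surjective _ q
    have h3 : n ∈ ((G ⊔ U : Subgroup Γ) : Set Γ) := by rw [h1]; trivial
    rw [Subgroup.normal_mul] at h3
    obtain ⟨g, hg, u, hu, rfl⟩ := h3
    have hgn : g ∈ Subgroup.normalizer (U : Set Γ) := by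
      have := Subgroup.mul_mem _ hn (Subgroup.inv_mem _ (Subgroup.le_normalizer hu))
      rwa [mul_inv_cancel_right] at this
    refine ⟨⟨g, hg, Subgroup.mem_centralizer_iff.mpr fun v hv => comm_of_norm h2 hg hgn hv⟩, ?_⟩
    refine QuotientGroup.eq.mpr ?_
    rw [Subgroup.mem_subgroupOf]
    change g⁻¹ * (g * u) ∈ U
    rw [inv_mul_cancel_left]
    exact hu

lemma card_norm [Finite Γ] [G.Normal] (hi : G.index = p) (h1 : G ⊔ U = ⊤) (h2 : G ⊓ U = ⊥) :
    Nat.card (Subgroup.normalizer (U : Set Γ)) =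
      p * Nat.card ↥(G ⊓ Subgroup.centralizer (U : Set Γ)) := by
  rw [Nat.card_congr (quotEquiv h1 h2).toEquiv]
  have h3 := Subgroup.card_eq_card_quotient_mul_card_subgroup
    (U.subgroupOf (Subgroup.normalizer (U : Set Γ)))
  rw [h3, mul_comm, Nat.card_congr (Subgroup.subgroupOfEquivOfLe Subgroup.le_normalizer).toEquiv,
    card_of_compl hi h1 h2]

/-- **characters of defect zero and normal subgroups of index `p`** -/
theorem zed : IndexT p (fun H _ => (numDefectZero p H : ℤ)) := by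
  intro Γ _ _ G _ hi
  have hq : Nat.card (Γ ⧸ G) = p := hi
  have hpG : IsPGroup p (Γ ⧸ G) := IsPGroup.of_card (n := 1) (by rw [hq, pow_one])
  have h1 := Pool.Agent.Y564.NV.clif p Γ G hq
  have h2 := dgn' p Γ G hpG
  have h3 := G.card_mul_index
  rw [hi] at h3
  have : Fintype (Subgroup Γ) := Fintype.ofFinite _
  rw [finsum_eq_sum_of_fintype] at h2 ⊢
  have h4 : ∀ R : Subgroup Γ, (if IsPGroup p R ∧ G ⊔ R = ⊤ ∧ G ⊓ R = ⊥ then
        Nat.card (Subgroup.normalizer (R : Set Γ)) * locz p R else 0) =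
      p * (if Nat.card R = p ∧ ¬ R ≤ G then
        Nat.card ↥(G ⊓ Subgroup.centralizer (R : Set Γ)) *
          numDefectZero p ↥(G ⊓ Subgroup.centralizer (R : Set Γ)) else 0) := by
    intro R
    by_cases h : Nat.card R = p ∧ ¬ R ≤ G
    · have h5 := sup_eq_top_of_index hi h.2
      have h6 := inf_eq_bot_of_card h.1 h.2
      rw [if_pos h, if_pos ⟨IsPGroup.of_card (n := 1) (by rw [h.1, pow_one]), h5, h6⟩,
        card_norm hi h5 h6, mul_assoc]
      congr 2
      exact (Pool.Agent.Y63.AWC.numDefectZero_congr (quotEquiv h5 h6)).symm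
    · rw [if_neg h, if_neg, mul_zero]
      rintro ⟨h5, h6, h7⟩
      apply h
      have h8 := card_of_compl hi h6 h7
      refine ⟨h8, fun h9 => ?_⟩
      rw [inf_eq_right.mpr h9] at h7
      rw [h7, Subgroup.card_bot] at h8
      exact hp.out.one_lt.ne h8
  simp only [h4] at h2
  rw [← Finset.mul_sum, ← h3, mul_comm _ p, mul_assoc] at h2
  have h5 := Nat.eq_of_mul_eq_mul_left hp.out.pos h2
  have h6 := congrArg (Nat.cast : ℕ → ℤ) h5
  have h7 := congrArg (Nat.cast : ℕ → ℤ) h1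
  have h8 := congrArg (Nat.cast : ℕ → ℤ) h3
  push_cast at h6 h7 h8
  change (Nat.card Γ : ℤ) * (numDefectZero p Γ : ℤ) = Nat.card G * (numDefectZero p G : ℤ) -
    ∑ U : Subgroup Γ, if Nat.card U = p ∧ ¬ U ≤ G then
        (Nat.card ↥(G ⊓ Subgroup.centralizer (U : Set Γ)) : ℤ) *
          (numDefectZero p ↥(G ⊓ Subgroup.centralizer (U : Set Γ)) : ℤ) else 0
  rw [← h6, ← h7, ← h8]
  ring

end

end Pool.Agent.Q18.KRX
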