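import Pool.Agent.Q18.KRX.StmT
import Pool.Agent.Q18.KRX.Zed

/-!
# Commuting pairs and normal subgroups of index `p`
-/

open scoped Classical

noncomputable section

namespace Pool.Agent.Q18.KRX

open Pool.Agent.Y63.KR

section

variable {p : ℕ} [hp : Fact p.Prime] {Γ : Type} [Group Γ]

/-- the Knörr-Robinson alternating sum: `∑ (-1)^|σ| k(H_σ)` over the classes of chains of nontrivial
`p`-subgroups of `H`, the empty chain included -/
def krSum (p : ℕ) (H : Type) [Group H] : ℤ :=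
  alternatingSum p H (fun K => (Nat.card (ConjClasses K) : ℤ))

lemma card_mul_krSum [Finite Γ] [Fintype Γ] :
    (Nat.card Γ : ℤ) * krSum p Γ =
      ∑ q : Γ × Γ, if q.1 * q.2 = q.2 * q.1 then W p ({q.1, q.2} : Set Γ) else 0 := by
  have : Fintype (TwPair 1 Γ) := Fintype.ofFinite _
  have e2 : (fun H : Subgroup Γ => (Nat.card (ConjClasses H) : ℤ)) =
      fun H : Subgroup Γ => (numR 1 H (fun _ => True) : ℤ) := funext fun H => by
    rw [← numFixed_eq, numFixed_one]
  have h1 := sum_numR (p := p) (G := Γ) 1 (fun _ => True)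
  rw [← e2] at h1
  unfold krSum
  rw [h1, ← Finset.sum_filter]
  simp only [bz_pos trivial, mul_one]
  refine Finset.sum_bij (fun q _ => q.1) ?_ ?_ ?_ ?_
  · intro q _
    rw [Finset.mem_filter]
    refine ⟨Finset.mem_univ _, ?_⟩
    have h := q.2
    rw [pow_one, mul_inv_eq_iff_eq_mul] at h
    exact h.symm
  · intro q _ q' _ h
    exact Subtype.ext h
  · intro q hq
    rw [Finset.mem_filter] at hq
    exact ⟨⟨q, by rw [pow_one, ← hq.2, mul_inv_cancel_right]⟩, Finset.mem_univ _, rfl⟩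
  · intro q _
    rfl

/-- the contribution of a pair to the sum of the subgroup `C` -/
def gC (p : ℕ) (C : Subgroup Γ) (q : Γ × Γ) : ℤ :=
  if q.1 * q.2 = q.2 * q.1 ∧ q.1 ∈ C ∧ q.2 ∈ C then
    W p {x : C | (x : Γ) ∈ ({q.1, q.2} : Set Γ)} else 0

lemma sum_gC [Finite Γ] [Fintype Γ] (C : Subgroup Γ) :
    ∑ q : Γ × Γ, gC p C q = (Nat.card C : ℤ) * krSum p C := by
  have : Fintype C := Fintype.ofFinite _
  rw [card_mul_krSum]
  symm
  refine Finset.sum_of_injOn (fun q : C × C => ((q.1 : Γ), (q.2 : Γ))) ?_ ?_ ?_ ?_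
  · intro q _ q' _ h
    simp only [Prod.mk.injEq] at h
    exact Prod.ext (Subtype.ext h.1) (Subtype.ext h.2)
  · intro q _
    simp
  · intro q _ hq
    unfold gC
    rw [if_neg]
    rintro ⟨_, h1, h2⟩
    exact hq ⟨(⟨q.1, h1⟩, ⟨q.2, h2⟩), by simp, rfl⟩
  · intro q _
    unfold gC
    by_cases h : q.1 * q.2 = q.2 * q.1
    · rw [if_pos h, if_pos ⟨congrArg Subtype.val h, q.1.2, q.2.2⟩]
      congr 1
      ext x
      simp only [Set.mem_insert_iff, Set.mem_singleton_iff, Set.mem_setOf_eq]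
      rw [Subtype.ext_iff, Subtype.ext_iff]
    · rw [if_neg h, if_neg]
      rintro ⟨h1, _⟩
      exact h (Subtype.ext h1)

lemma dvd_orderOf [Finite Γ] {G : Subgroup Γ} [G.Normal] (hi : G.index = p) {x : Γ} (hx : x ∉ G) :
    p ∣ orderOf x := by
  by_contra h
  apply hx
  have h1 : x ^ p ∈ G := by
    have := Subgroup.pow_index_mem G x
    rwa [hi] at this
  have h2 : Nat.Coprime p (orderOf x) := (Nat.Prime.coprime_iff_not_dvd hp.out).mpr h
  have h3 : x ∈ Subgroup.zpowers (x ^ p) := by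
    have h4 : Subgroup.zpowers (x ^ p) = Subgroup.zpowers x := by
      refine Subgroup.eq_of_le_of_card_ge ?_ ?_
      · rw [Subgroup.zpowers_le]
        exact Subgroup.pow_mem _ (Subgroup.mem_zpowers x) p
      · rw [Nat.card_zpowers, Nat.card_zpowers, (h2.symm).orderOf_pow]
    rw [h4]
    exact Subgroup.mem_zpowers x
  exact (Subgroup.zpowers_le.mpr h1) h3

lemma W_outside [Finite Γ] {G : Subgroup Γ} [G.Normal] (hi : G.index = p) {x y : Γ}
    (h : x * y = y * x) (hxy : ¬ (x ∈ G ∧ y ∈ G)) : W p ({x, y} : Set Γ) = 0 := by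
  by_cases hx : x ∈ G
  · have hy : y ∉ G := fun hy => hxy ⟨hx, hy⟩
    rw [Set.pair_comm]
    refine W_eq_zero (s := 1) ?_ (dvd_orderOf hi hy)
    rw [pow_one, h, mul_inv_cancel_right]
  · refine W_eq_zero (s := 1) ?_ (dvd_orderOf hi hx)
    rw [pow_one, ← h, mul_inv_cancel_right]

/-- **commuting pairs and normal subgroups of index `p`** -/
theorem ex (ht : S_TOP) : IndexT p (fun H _ => krSum p H) := by
  intro Γ _ _ G _ hi
  have : Fintype Γ := Fintype.ofFinite _
  have : Fintype (Subgroup Γ) := Fintype.ofFinite _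
  change (Nat.card Γ : ℤ) * krSum p Γ = Nat.card G * krSum p G -
    ∑ᶠ U : Subgroup Γ, if Nat.card U = p ∧ ¬ U ≤ G then
        (Nat.card ↥(G ⊓ Subgroup.centralizer (U : Set Γ)) : ℤ) *
          krSum p ↥(G ⊓ Subgroup.centralizer (U : Set Γ)) else 0
  rw [card_mul_krSum, finsum_eq_sum_of_fintype, ← sum_gC G]
  have h1 : ∀ U : Subgroup Γ, (if Nat.card U = p ∧ ¬ U ≤ G then
        (Nat.card ↥(G ⊓ Subgroup.centralizer (U : Set Γ)) : ℤ) *
          krSum p ↥(G ⊓ Subgroup.centralizer (U : Set Γ)) else 0) =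
      ∑ q : Γ × Γ, if Nat.card U = p ∧ ¬ U ≤ G then
        gC p (G ⊓ Subgroup.centralizer (U : Set Γ)) q else 0 := by
    intro U
    split_ifs
    · rw [sum_gC]
    · simp
  simp only [h1]
  rw [Finset.sum_comm, ← Finset.sum_sub_distrib]
  refine Finset.sum_congr rfl fun q _ => ?_
  by_cases hc : q.1 * q.2 = q.2 * q.1
  · rw [if_pos hc]
    by_cases hG : q.1 ∈ G ∧ q.2 ∈ G
    · have hK : ({q.1, q.2} : Set Γ) ⊆ G := by
        rintro z (rfl | rfl)
        · exact hG.1
        · exact hG.2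
      rw [ht p Γ G hi _ hK, finsum_eq_sum_of_fintype]
      congr 1
      · unfold gC
        rw [if_pos ⟨hc, hG⟩]
      · refine Finset.sum_congr rfl fun U _ => ?_
        by_cases hU : Nat.card U = p ∧ ¬ U ≤ G
        · rw [if_pos hU]
          unfold gC
          by_cases h2 : ({q.1, q.2} : Set Γ) ⊆ (Subgroup.centralizer (U : Set Γ) : Set Γ)
          · rw [if_pos ⟨hU.1, hU.2, h2⟩, if_pos ⟨hc, ⟨hG.1, h2 (by simp)⟩, ⟨hG.2, h2 (by simp)⟩⟩]
          · rw [if_neg (fun h => h2 h.2.2), if_neg]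
            rintro ⟨_, h3, h4⟩
            apply h2
            rintro z (rfl | rfl)
            · exact h3.2
            · exact h4.2
        · rw [if_neg hU, if_neg (fun h => hU ⟨h.1, h.2.1⟩)]
    · rw [W_outside hi hc hG]
      unfold gC
      rw [if_neg (fun h => hG h.2), zero_sub, eq_comm, neg_eq_zero]
      refine Finset.sum_eq_zero fun U _ => ?_
      split_ifs with h3 h4
      · exact absurd ⟨h4.2.1.1, h4.2.2.1⟩ hG
      · rfl
      · rfl
  · rw [if_neg hc]
    unfold gC
    rw [if_neg (fun h => hc h.1), zero_sub, eq_comm, neg_eq_zero]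
    refine Finset.sum_eq_zero fun U _ => ?_
    split_ifs with h3 h4
    · exact absurd h4.1 hc
    · rfl
    · rfl

lemma chain_map {H K : Type} [Group H] [Group K] (e : H ≃* K) {σ : Set (Subgroup H)}
    (h : IsPChain p σ) : IsPChain p (e.mapSubgroup '' σ) := by
  refine ⟨?_, ?_, ?_⟩
  · rintro _ ⟨P, hP, rfl⟩ _ ⟨Q, hQ, rfl⟩ hne
    have hPQ : P ≠ Q := fun h => hne (by rw [h])
    rcases h.chain hP hQ hPQ with h1 | h1
    · exact Or.inl (e.mapSubgroup.monotone h1)
    · exact Or.inr (e.mapSubgroup.monotone h1)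
  · rintro _ ⟨P, hP, rfl⟩
    exact (h.isPGroup P hP).map e.toMonoidHom
  · rintro _ ⟨P, hP, rfl⟩ h1
    apply h.ne_bot P hP
    have h2 : e.mapSubgroup P = e.mapSubgroup ⊥ := by
      rw [h1, map_bot]
    exact e.mapSubgroup.injective h2

lemma conj_map {H K : Type} [Group H] [Group K] (e : H ≃* K) (x : H) (P : Subgroup H) :
    conjSub (e x) (e.mapSubgroup P) = e.mapSubgroup (conjSub x P) := by
  ext z
  rw [mem_conjSub]
  constructor
  · rintro ⟨y, hy, hyz⟩
    refine ⟨x * y * x⁻¹, conj_mem_conjSub hy, ?_⟩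
    change e y = (e x)⁻¹ * z * e x at hyz
    change e (x * y * x⁻¹) = z
    rw [map_mul, map_mul, map_inv, hyz]
    group
  · rintro ⟨y, hy, rfl⟩
    have hy' : y ∈ conjSub x P := hy
    rw [mem_conjSub] at hy'
    refine ⟨x⁻¹ * y * x, hy', ?_⟩
    change e (x⁻¹ * y * x) = (e x)⁻¹ * e y * e x
    rw [map_mul, map_mul, map_inv]

lemma W_iso {H K : Type} [Group H] [Group K] (e : H ≃* K) (S : Set H) :
    W p (e '' S) = W p S := by
  unfold W
  symm
  refine finsum_eq_of_bijective (fun σ : {σ : Set (Subgroup H) // IsPChain p σ} =>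
    (⟨e.mapSubgroup '' σ.1, chain_map e σ.2⟩ : {σ : Set (Subgroup K) // IsPChain p σ})) ?_ ?_
  · constructor
    · intro σ τ h
      exact Subtype.ext (e.mapSubgroup.injective.image_injective (congrArg Subtype.val h))
    · intro τ
      refine ⟨⟨e.symm.mapSubgroup '' τ.1, chain_map e.symm τ.2⟩, ?_⟩
      apply Subtype.ext
      change e.mapSubgroup '' (e.symm.mapSubgroup '' τ.1) = τ.1
      rw [← Set.image_comp]
      have : (e.mapSubgroup ∘ e.symm.mapSubgroup : Subgroup K → Subgroup K) = id := by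
        funext P
        change (P.map e.symm.toMonoidHom).map e.toMonoidHom = P
        rw [Subgroup.map_map]
        ext x
        simp
      rw [this, Set.image_id]
  · intro σ
    congr 1
    · rw [Set.ncard_image_of_injective _ e.mapSubgroup.injective]
    · congr 1
      rw [eq_iff_iff]
      constructor
      · rintro h _ ⟨P, hP, rfl⟩ _ ⟨x, hx, rfl⟩
        rw [conj_map, h P hP x hx]
      · intro h P hP x hx
        apply e.mapSubgroup.injective
        rw [← conj_map]
        exact h _ ⟨P, hP, rfl⟩ _ ⟨x, hx, rfl⟩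

lemma krSum_iso : IsoT (fun H _ => krSum p H) := by
  rintro H K _ _ _ _ ⟨e⟩
  have : Fintype H := Fintype.ofFinite _
  have : Fintype K := Fintype.ofFinite _
  have h0 : (Nat.card H : ℤ) ≠ 0 := by exact_mod_cast Nat.card_pos.ne'
  refine mul_left_cancel₀ h0 ?_
  change (Nat.card H : ℤ) * krSum p H = Nat.card H * krSum p K
  rw [card_mul_krSum, Nat.card_congr e.toEquiv, card_mul_krSum]
  refine Fintype.sum_equiv (Equiv.prodCongr e.toEquiv e.toEquiv) _ _ fun q => ?_
  change _ = if e q.1 * e q.2 = e q.2 * e q.1 then W p ({e q.1, e q.2} : Set K) else 0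
  rw [← Set.image_pair, W_iso, ← map_mul, ← map_mul, e.injective.eq_iff]

lemma zed_iso : IsoT (fun H _ => (Pool.Agent.Y63.AWC.numDefectZero p H : ℤ)) := by
  rintro H K _ _ _ _ ⟨e⟩
  change (Pool.Agent.Y63.AWC.numDefectZero p H : ℤ) = Pool.Agent.Y63.AWC.numDefectZero p K
  rw [Pool.Agent.Y63.AWC.numDefectZero_congr e]

lemma IndexT.sub {f g : ∀ (H : Type) [Group H], ℤ} (hf : IndexT p f) (hg : IndexT p g) :
    IndexT p (fun H _ => f H - g H) := by
  intro Γ _ _ G _ hi
  have : Fintype (Subgroup Γ) := Fintype.ofFinite _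
  have h1 := hf Γ G hi
  have h2 := hg Γ G hi
  rw [finsum_eq_sum_of_fintype] at h1 h2 ⊢
  have h3 : ∀ U : Subgroup Γ, (if Nat.card U = p ∧ ¬ U ≤ G then
        (Nat.card ↥(G ⊓ Subgroup.centralizer (U : Set Γ)) : ℤ) *
          (f ↥(G ⊓ Subgroup.centralizer (U : Set Γ)) - g ↥(G ⊓ Subgroup.centralizer (U : Set Γ)))
          else 0) =
      (if Nat.card U = p ∧ ¬ U ≤ G then
        (Nat.card ↥(G ⊓ Subgroup.centralizer (U : Set Γ)) : ℤ) *
          f ↥(G ⊓ Subgroup.centralizer (U : Set Γ)) else 0) -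
      (if Nat.card U = p ∧ ¬ U ≤ G then
        (Nat.card ↥(G ⊓ Subgroup.centralizer (U : Set Γ)) : ℤ) *
          g ↥(G ⊓ Subgroup.centralizer (U : Set Γ)) else 0) := by
    intro U
    split_ifs
    · rw [mul_sub]
    · simp
  simp only [h3]
  rw [Finset.sum_sub_distrib, mul_sub, h1, h2]
  ring

/-- from types to subgroups -/
theorem indexP_of {f : ∀ (H : Type) [Group H], ℤ} (hf : IndexT p f) (hi : IsoT f) [Finite Γ] :
    IndexP p (fun H : Subgroup Γ => (Nat.card H : ℤ) * f H) := by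
  intro M H hMH hn hidx
  have : Fintype (Subgroup Γ) := Fintype.ofFinite _
  have : Fintype (Subgroup H) := Fintype.ofFinite _
  have hN : (M.subgroupOf H).Normal := by
    constructor
    intro m hm h
    rw [Subgroup.mem_subgroupOf] at hm ⊢
    exact hn h h.2 _ hm
  have h1 := hf H (M.subgroupOf H) hidx
  change (Nat.card H : ℤ) * f H = (Nat.card M : ℤ) * f M -
    ∑ᶠ U : Subgroup Γ, if U ≤ H ∧ Nat.card U = p ∧ ¬ U ≤ M then
      (Nat.card ↥(M ⊓ Subgroup.centralizer (U : Set Γ)) : ℤ) *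
        f ↥(M ⊓ Subgroup.centralizer (U : Set Γ)) else 0
  rw [h1]
  have e1 := Subgroup.subgroupOfEquivOfLe hMH
  rw [Nat.card_congr e1.toEquiv, hi _ _ ⟨e1⟩, finsum_eq_sum_of_fintype, finsum_eq_sum_of_fintype]
  congr 1
  refine Finset.sum_of_injOn (fun U : Subgroup H => U.map H.subtype) ?_ ?_ ?_ ?_
  · intro U _ V _ h
    exact Subgroup.map_injective H.subtype_injective h
  · intro U _
    simp
  · intro U _ hU
    rw [if_neg]
    rintro ⟨h2, _⟩
    refine hU ⟨U.subgroupOf H, by simp, ?_⟩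
    exact Subgroup.map_subgroupOf_eq_of_le h2
  · intro U _
    have h2 : U.map H.subtype ≤ H := Subgroup.map_subtype_le U
    have h3 : Nat.card (U.map H.subtype) = Nat.card U :=
      (Nat.card_congr (Subgroup.equivMapOfInjective U _ H.subtype_injective).toEquiv).symm
    have h4 : U.map H.subtype ≤ M ↔ U ≤ M.subgroupOf H := by
      rw [Subgroup.map_le_iff_le_comap]
      rfl
    by_cases h : Nat.card U = p ∧ ¬ U ≤ M.subgroupOf H
    · rw [if_pos h, if_pos ⟨h2, by rw [h3]; exact h.1, fun h5 => h.2 (h4.mp h5)⟩]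
      have h5 : (M ⊓ Subgroup.centralizer ((U.map H.subtype : Subgroup Γ) : Set Γ)).subgroupOf H =
          M.subgroupOf H ⊓ Subgroup.centralizer (U : Set H) := by
        ext x
        rw [Subgroup.mem_subgroupOf, Subgroup.mem_inf, Subgroup.mem_inf, Subgroup.mem_subgroupOf,
          Subgroup.mem_centralizer_iff, Subgroup.mem_centralizer_iff]
        refine and_congr_right fun _ => ?_
        constructor
        · intro h6 u hu
          exact Subtype.ext (h6 u ⟨u, hu, rfl⟩)
        · rintro h6 _ ⟨u, hu, rfl⟩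
          exact congrArg Subtype.val (h6 u hu)
      have e2 := Subgroup.subgroupOfEquivOfLe
        (show M ⊓ Subgroup.centralizer ((U.map H.subtype : Subgroup Γ) : Set Γ) ≤ H from
          inf_le_left.trans hMH)
      rw [← h5, Nat.card_congr e2.toEquiv, hi _ _ ⟨e2⟩]
    · rw [if_neg h, if_neg]
      rintro ⟨_, h6, h7⟩
      exact h ⟨by rw [← h3]; exact h6, fun h8 => h7 (h4.mpr h8)⟩

end

end Pool.Agent.Q18.KRX
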