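import Pool.Agent.Q18.KRX.Ex

/-!
# The error term of the Knörr-Robinson conjecture
-/

open scoped Classical

noncomputable section

namespace Pool.Agent.Q18.KRX

open Pool.Agent.Y63.KR
open Pool.Agent.Y63.AWC (numDefectZero)

/-- the error term `χ₂ - (k(H) - z_p(H))` of the Knörr-Robinson conjecture -/
def err (p : ℕ) (H : Type) [Group H] : ℚ :=
  chi2 p H - ((Nat.card (ConjClasses H) : ℚ) - (numDefectZero p H : ℚ))

lemma krc_iff_err (p : ℕ) (H : Type) [Group H] : KRC p H ↔ err p H = 0 := by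
  unfold KRC err
  rw [sub_eq_zero]

/-- the integral error term -/
def errZ (p : ℕ) (H : Type) [Group H] : ℤ := (numDefectZero p H : ℤ) - krSum p H

lemma err_eq (p : ℕ) [Fact p.Prime] (H : Type) [Group H] [Finite H] : err p H = (errZ p H : ℚ) := by
  have h := altSum_classes (p := p) (G := H)
  unfold err errZ krSum
  push_cast
  rw [h]
  ring

/-- the formula for normal subgroups of `p`-power index -/
theorem main (hT : S_TOP) (hI : S_IND) (p : ℕ) [Fact p.Prime] (Γ : Type) [Group Γ] [Finite Γ]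
    (G : Subgroup Γ) [hG : G.Normal] (hp : IsPGroup p (Γ ⧸ G)) :
    (Nat.card Γ : ℤ) * errZ p Γ =
      ∑ᶠ U : Subgroup Γ, if IsPGroup p U ∧ G ⊓ U = ⊥ then
        mu p U * ((Nat.card ↥(G ⊓ Subgroup.centralizer (U : Set Γ)) : ℤ) *
          errZ p ↥(G ⊓ Subgroup.centralizer (U : Set Γ))) else 0 := by
  have hiso : IsoT (fun H _ => errZ p H) := by
    intro H K _ _ _ _ h
    have h1 := zed_iso (p := p) H K h
    have h2 := krSum_iso (p := p) H K h
    change (numDefectZero p H : ℤ) = numDefectZero p K at h1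
    change krSum p H = krSum p K at h2
    change (numDefectZero p H : ℤ) - krSum p H = (numDefectZero p K : ℤ) - krSum p K
    rw [h1, h2]
  have h1 := indexP_of (Γ := Γ) (IndexT.sub (zed (p := p)) (ex (p := p) hT)) hiso
  obtain ⟨n, hn⟩ := IsPGroup.iff_card.mp hp
  have h2 := hI p Γ _ h1 G ⊤ le_top (fun h _ g hg => hG.conj_mem g hg h)
    ⟨n, by rw [Subgroup.relIndex_top_right]; exact hn⟩
  have h3 : (Nat.card (⊤ : Subgroup Γ) : ℤ) * errZ p (⊤ : Subgroup Γ) =
      (Nat.card Γ : ℤ) * errZ p Γ := by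
    rw [Subgroup.card_top]
    congr 1
    exact hiso _ _ ⟨Subgroup.topEquiv⟩
  rw [← h3]
  refine Eq.trans h2 (finsum_congr fun U => ?_)
  by_cases h : IsPGroup p U ∧ G ⊓ U = ⊥
  · rw [if_pos h, if_pos ⟨le_top, h⟩]
    rfl
  · rw [if_neg h, if_neg (fun h' => h h'.2)]

end Pool.Agent.Q18.KRX
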