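import Pool.Agent.Q18.KRX.Fin

/-!
# The index formula
-/

open scoped Classical

noncomputable section

namespace Pool.Agent.Q18.KRX

open Pool.Agent.Y63.KR
open Pool.Agent.Y63.AWC (numDefectZero)

lemma mu_bot (p : ℕ) {Γ : Type} [Group Γ] : mu p (⊥ : Subgroup Γ) = 1 := by
  unfold mu
  rw [if_pos]
  · rw [Subgroup.card_bot]
    simp
  · constructor
    · intro x hx
      rw [Subgroup.mem_bot] at hx
      rw [hx, one_pow]
    · intro x hx y hy
      rw [Subgroup.mem_bot] at hx hy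
      rw [hx, hy]

lemma errZ_iso {p : ℕ} [Fact p.Prime] (H K : Type) [Group H] [Group K] [Finite H] [Finite K]
    (h : Nonempty (H ≃* K)) : errZ p H = errZ p K := by
  have h1 := zed_iso (p := p) H K h
  have h2 := krSum_iso (p := p) H K h
  change (numDefectZero p H : ℤ) = numDefectZero p K at h1
  change krSum p H = krSum p K at h2
  change (numDefectZero p H : ℤ) - krSum p H = (numDefectZero p K : ℤ) - krSum p K
  rw [h1, h2]

theorem final (hT : S_TOP) (hI : S_IND) (p : ℕ) [Fact p.Prime] (Γ : Type) [Group Γ] [Finite Γ]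
    (G : Subgroup Γ) [G.Normal] (hp : IsPGroup p (Γ ⧸ G)) :
    ((Nat.card Γ : ℚ) * err p Γ =
      ∑ᶠ U : Subgroup Γ, if IsPGroup p U ∧ G ⊓ U = ⊥ then
        (mu p U : ℚ) * ((Nat.card ↥(G ⊓ Subgroup.centralizer (U : Set Γ)) : ℚ) *
          err p ↥(G ⊓ Subgroup.centralizer (U : Set Γ))) else 0) ∧
    ((∀ U : Subgroup Γ, IsPGroup p U → G ⊓ U = ⊥ → U ≠ ⊥ → (∀ x ∈ U, x ^ p = 1) →
        (∀ x ∈ U, ∀ y ∈ U, x * y = y * x) →
        KRC p ↥(G ⊓ Subgroup.centralizer (U : Set Γ))) → (KRC p Γ ↔ KRC p G)) := by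
  have hfin : Fintype (Subgroup Γ) := Fintype.ofFinite _
  have hm : (Nat.card Γ : ℚ) * err p Γ =
      ∑ᶠ U : Subgroup Γ, if IsPGroup p U ∧ G ⊓ U = ⊥ then
        (mu p U : ℚ) * ((Nat.card ↥(G ⊓ Subgroup.centralizer (U : Set Γ)) : ℚ) *
          err p ↥(G ⊓ Subgroup.centralizer (U : Set Γ))) else 0 := by
    have h := congrArg (Int.cast : ℤ → ℚ) (main hT hI p Γ G hp)
    rw [finsum_eq_sum_of_fintype] at h ⊢
    push_cast at h
    rw [err_eq, h]
    refine Finset.sum_congr rfl fun U _ => ?_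
    split_ifs
    · rw [err_eq]
    · rfl
  refine ⟨hm, fun hU => ?_⟩
  have h1 : (Nat.card Γ : ℚ) * err p Γ = (Nat.card G : ℚ) * err p G := by
    rw [hm, finsum_eq_single _ (⊥ : Subgroup Γ)]
    · have hb : G ⊓ Subgroup.centralizer ((⊥ : Subgroup Γ) : Set Γ) = G := by
        rw [inf_eq_left]
        intro g _
        rw [Subgroup.mem_centralizer_iff]
        intro y hy
        have : y = 1 := hy
        rw [this, one_mul, mul_one]
      rw [if_pos ⟨IsPGroup.of_bot, inf_bot_eq G⟩, mu_bot, Int.cast_one, one_mul, hb]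
    · intro U hne
      by_cases h : IsPGroup p U ∧ G ⊓ U = ⊥
      · rw [if_pos h]
        by_cases h2 : (∀ x ∈ U, x ^ p = 1) ∧ (∀ x ∈ U, ∀ y ∈ U, x * y = y * x)
        · rw [(krc_iff_err p _).mp (hU U h.1 h.2 hne h2.1 h2.2), mul_zero, mul_zero]
        · have : mu p U = 0 := by
            unfold mu
            rw [if_neg h2]
          rw [this, Int.cast_zero, zero_mul]
      · rw [if_neg h]
  have h2 : (Nat.card Γ : ℚ) ≠ 0 := by exact_mod_cast Nat.card_pos.ne'
  have h3 : (Nat.card G : ℚ) ≠ 0 := by exact_mod_cast Nat.card_pos.ne'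
  rw [krc_iff_err, krc_iff_err]
  constructor
  · intro h
    rw [h, mul_zero] at h1
    exact (mul_eq_zero.mp h1.symm).resolve_left h3
  · intro h
    rw [h, mul_zero] at h1
    exact (mul_eq_zero.mp h1).resolve_left h2

end Pool.Agent.Q18.KRX
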