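import Mathlib

/-!
# Normal subgroups of `p`-power index and functions of centralisers: statement of the induction
-/

open scoped Classical

noncomputable section

namespace Pool.Agent.Q18.KRX

/-- the Möbius function of the lattice of subgroups of the `p`-group `U` (P. Hall):
`(-1)^r p^(r(r-1)/2)` if `U` is elementary abelian of order `p^r`, and `0` otherwise -/
def mu (p : ℕ) {Γ : Type} [Group Γ] (U : Subgroup Γ) : ℤ :=
  if (∀ x ∈ U, x ^ p = 1) ∧ (∀ x ∈ U, ∀ y ∈ U, x * y = y * x) then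
    (-1) ^ (Nat.card U).factorization p *
      (p : ℤ) ^ ((Nat.card U).factorization p * ((Nat.card U).factorization p - 1) / 2)
  else 0

/-- the formula for normal subgroups of index `p` -/
def IndexP (p : ℕ) {Γ : Type} [Group Γ] (F : Subgroup Γ → ℤ) : Prop :=
  ∀ M H : Subgroup Γ, M ≤ H → (∀ h ∈ H, ∀ m ∈ M, h * m * h⁻¹ ∈ M) → M.relIndex H = p →
    F H = F M - ∑ᶠ U : Subgroup Γ, if U ≤ H ∧ Nat.card U = p ∧ ¬ U ≤ M then
      F (M ⊓ Subgroup.centralizer (U : Set Γ)) else 0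

/-- JOB IND: from index `p` to `p`-power index -/
def S_IND : Prop := ∀ (p : ℕ) [Fact p.Prime] (Γ : Type) [Group Γ] [Finite Γ]
  (F : Subgroup Γ → ℤ), IndexP p F → ∀ G H : Subgroup Γ, G ≤ H →
    (∀ h ∈ H, ∀ g ∈ G, h * g * h⁻¹ ∈ G) → (∃ n : ℕ, G.relIndex H = p ^ n) →
    F H = ∑ᶠ U : Subgroup Γ, if U ≤ H ∧ IsPGroup p U ∧ G ⊓ U = ⊥ then
      mu p U * F (G ⊓ Subgroup.centralizer (U : Set Γ)) else 0

end Pool.Agent.Q18.KRX
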