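import Pool.Agent.Y63.KR.Levels

/-!
# The poset of `p`-subgroups and normal subgroups of index `p`: statement
-/

open scoped Classical

noncomputable section

namespace Pool.Agent.Q18.KRX

open Pool.Agent.Y63.KR

/-- JOB TOP: the (reduced) Euler characteristic of the `p`-subgroups normalised by a set `K` of
elements of a normal subgroup `G` of index `p`; `W p K` is the sum of `(-1)^|σ|` over the chains
(the empty one included) of nontrivial `p`-subgroups normalised by all elements of `K`. -/
def S_TOP : Prop := ∀ (p : ℕ) [Fact p.Prime] (Γ : Type) [Group Γ] [Finite Γ] (G : Subgroup Γ)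
  [G.Normal], G.index = p → ∀ K : Set Γ, K ⊆ G →
    W p K = W p {x : G | (x : Γ) ∈ K} -
      ∑ᶠ U : Subgroup Γ, if Nat.card U = p ∧ ¬ U ≤ G ∧
          K ⊆ (Subgroup.centralizer (U : Set Γ) : Set Γ) then
        W p {x : ↥(G ⊓ Subgroup.centralizer (U : Set Γ)) | (x : Γ) ∈ K} else 0

end Pool.Agent.Q18.KRX
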